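import Pool.Agent.Y958.E.Stm

/-!
Library Y815.EC (helper815): relations at the vertices of a cube give a relation for `φ` alone
(task CR of the library Y958.E).
-/

set_option autoImplicit false

namespace Pool.Agent.Y815.EC

open Finset
open Pool.Agent.Y958.U Pool.Agent.Y958.TC Pool.Agent.Y958.E

lemma m_ind_shift (μ : NM) (V : ℕ → Prop) (A : ℕ) (hV : ∀ n, V (n + A) ↔ V n) (F : ℤ → Prop) (t : ℤ)
    (ht : (A : ℤ) ∣ t) : μ.m (ind (fun n : ℕ => V n ∧ F (n + t))) = μ.m (ind (fun n : ℕ => V n ∧ F n)) := by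
  have hVk : ∀ k n, V (n + A * k) ↔ V n := by
    intro k
    induction k with
    | zero => intro n; simp
    | succ k ih =>
      intro n
      rw [mul_add, mul_one, ← add_assoc, hV, ih]
  obtain ⟨k, hk⟩ := ht
  rcases le_total 0 k with hk0 | hk0
  · obtain ⟨m, rfl⟩ := Int.eq_ofNat_of_zero_le hk0
    rw [← m_shift μ (ind (fun n : ℕ => V n ∧ F n)) (Bd_ind _) (A * m)]
    congr 1
    funext n
    apply ind_at
    rw [hVk m n, hk]
    push_cast
    rfl
  · obtain ⟨m, hm⟩ := Int.eq_ofNat_of_zero_le (by omega : 0 ≤ -k)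
    have hk' : k = -(m : ℤ) := by omega
    rw [← m_shift μ (ind (fun n : ℕ => V n ∧ F (n + t))) (Bd_ind _) (A * m)]
    congr 1
    funext n
    apply ind_at
    rw [hVk m n]
    have : ((n + A * m : ℕ) : ℤ) + t = n := by
      rw [hk, hk']
      push_cast
      ring
    rw [this]

lemma m_ind_false (μ : NM) (P : ℕ → Prop) (h : ∀ n, ¬ P n) : μ.m (ind P) = 0 := by
  have h1 : ind P = fun n => 0 * ind P n := by
    funext n
    unfold ind
    rw [if_neg (h n)]
    simp
  rw [h1, μ.smul 0 _ (Bd_ind _), zero_mul]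

lemma m_ind_union (μ : NM) {ι : Type} [DecidableEq ι] (B : ι → ℕ → Prop) (ρ : ℝ)
    (h : ∀ i, μ.m (ind (B i)) ≤ ρ) (S : Finset ι) :
    μ.m (ind (fun n => ∃ i ∈ S, B i n)) ≤ S.card * ρ := by
  induction S using Finset.induction_on with
  | empty =>
    rw [m_ind_false μ _ (by simp)]
    simp
  | insert a S ha ih =>
    rw [Finset.card_insert_of_notMem ha]
    push_cast
    rw [add_mul, one_mul]
    refine le_trans (m_ind_or μ (P := fun n => ∃ i ∈ S, B i n) (Q := B a) ?_) (add_le_add ih (h a))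
    rintro n ⟨i, hi, hB⟩
    rcases Finset.mem_insert.1 hi with rfl | hi
    · exact Or.inr hB
    · exact Or.inl ⟨i, hi, hB⟩

lemma norm_prod_le_one {ι : Type} [DecidableEq ι] (S : Finset ι) (a : ι → ℂ) (ha : ∀ i, ‖a i‖ ≤ 1) :
    ‖∏ i ∈ S, a i‖ ≤ 1 := by
  rw [norm_prod]
  exact Finset.prod_le_one (fun i _ => norm_nonneg _) fun i _ => ha i

lemma norm_prod_sub {ι : Type} [DecidableEq ι] (S : Finset ι) (a b : ι → ℂ) (θ : ℝ)
    (ha : ∀ i, ‖a i‖ ≤ 1) (hb : ∀ i, ‖b i‖ ≤ 1) (h : ∀ i ∈ S, ‖a i - b i‖ ≤ θ) :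
    ‖∏ i ∈ S, a i - ∏ i ∈ S, b i‖ ≤ S.card * θ := by
  induction S using Finset.induction_on with
  | empty => simp
  | insert k S hk ih =>
    rw [Finset.card_insert_of_notMem hk, Finset.prod_insert hk, Finset.prod_insert hk]
    push_cast
    have e : a k * ∏ i ∈ S, a i - b k * ∏ i ∈ S, b i =
        a k * (∏ i ∈ S, a i - ∏ i ∈ S, b i) + (a k - b k) * ∏ i ∈ S, b i := by ring
    rw [e]
    have h1 : ‖a k * (∏ i ∈ S, a i - ∏ i ∈ S, b i)‖ ≤ S.card * θ := by
      rw [norm_mul]
      calc ‖a k‖ * ‖∏ i ∈ S, a i - ∏ i ∈ S, b i‖ ≤ 1 * (S.card * θ) :=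
            mul_le_mul (ha k) (ih fun i hi => h i (Finset.mem_insert_of_mem hi)) (norm_nonneg _) zero_le_one
        _ = _ := one_mul _
    have h2 : ‖(a k - b k) * ∏ i ∈ S, b i‖ ≤ θ := by
      rw [norm_mul]
      calc ‖a k - b k‖ * ‖∏ i ∈ S, b i‖ ≤ θ * 1 :=
            mul_le_mul (h k (Finset.mem_insert_self _ _)) (norm_prod_le_one S b hb) (norm_nonneg _)
              ((norm_nonneg _).trans (h k (Finset.mem_insert_self _ _)))
        _ = _ := mul_one _
    calc _ ≤ _ := norm_add_le _ _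
      _ ≤ S.card * θ + θ := add_le_add h1 h2
      _ = _ := by ring

/-- conjugation at the odd vertices -/
noncomputable def cj {d : ℕ} (η : Finset (Fin d)) (z : ℂ) : ℂ :=
  if Even η.card then z else (starRingEnd ℂ) z

lemma cj_mul {d : ℕ} (η : Finset (Fin d)) (z w : ℂ) : cj η (z * w) = cj η z * cj η w := by
  unfold cj; split_ifs
  · rfl
  · exact map_mul _ _ _

lemma cj_sub {d : ℕ} (η : Finset (Fin d)) (z w : ℂ) : cj η (z - w) = cj η z - cj η w := by
  unfold cj; split_ifs
  · rfl
  · exact map_sub _ _ _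

lemma cj_prod {d : ℕ} (η : Finset (Fin d)) {ι : Type} (S : Finset ι) (f : ι → ℂ) :
    cj η (∏ i ∈ S, f i) = ∏ i ∈ S, cj η (f i) := by
  unfold cj; split_ifs
  · rfl
  · exact map_prod _ _ _

lemma cj_norm {d : ℕ} (η : Finset (Fin d)) (z : ℂ) : ‖cj η z‖ = ‖z‖ := by
  unfold cj; split_ifs
  · rfl
  · exact Complex.norm_conj z

lemma cj_int {d : ℕ} (η : Finset (Fin d)) (z : ℤ) : cj η (z : ℂ) = (z : ℂ) := by
  unfold cj; split_ifs
  · rfl
  · exact map_intCast (starRingEnd ℂ) z

lemma cj_cancel {d : ℕ} (η η' : Finset (Fin d)) (h : Even η.card ↔ ¬ Even η'.card) (z : ℂ) (hz : ‖z‖ = 1) :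
    cj η z * cj η' z = 1 := by
  have h1 : z * (starRingEnd ℂ) z = 1 := by
    rw [Complex.mul_conj, Complex.normSq_eq_norm_sq, hz]
    norm_num
  unfold cj
  by_cases h2 : Even η.card
  · rw [if_pos h2, if_neg (h.1 h2)]
    exact h1
  · rw [if_neg h2, if_pos (by by_contra h3; exact h2 (h.2 h3)), mul_comm]
    exact h1

/-- toggling one element -/
def tog {d : ℕ} (l : Fin d) (η : Finset (Fin d)) : Finset (Fin d) :=
  if l ∈ η then η.erase l else insert l η

lemma tog_tog {d : ℕ} (l : Fin d) (η : Finset (Fin d)) : tog l (tog l η) = η := by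
  unfold tog
  by_cases h : l ∈ η
  · rw [if_pos h, if_neg (Finset.notMem_erase l η), Finset.insert_erase h]
  · rw [if_neg h, if_pos (Finset.mem_insert_self l η), Finset.erase_insert h]

lemma tog_ne {d : ℕ} (l : Fin d) (η : Finset (Fin d)) : tog l η ≠ η := by
  unfold tog
  by_cases h : l ∈ η
  · rw [if_pos h]
    intro h1
    rw [← h1] at h
    exact Finset.notMem_erase l η h
  · rw [if_neg h]
    intro h1
    rw [← h1] at h
    exact h (Finset.mem_insert_self l η)

lemma tog_even {d : ℕ} (l : Fin d) (η : Finset (Fin d)) : Even η.card ↔ ¬ Even (tog l η).card := by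
  unfold tog
  by_cases h : l ∈ η
  · rw [if_pos h]
    have h1 := Finset.card_erase_add_one h
    rw [← h1, Nat.even_add_one]
  · rw [if_neg h, Finset.card_insert_of_notMem h, Nat.even_add_one, not_not]

lemma tog_sum {d : ℕ} (l : Fin d) (η : Finset (Fin d)) (f : Fin d → ℤ) (hf : f l = 0) :
    ∑ i ∈ tog l η, f i = ∑ i ∈ η, f i := by
  unfold tog
  by_cases h : l ∈ η
  · rw [if_pos h]
    have := Finset.sum_erase_add η f h
    rw [hf, add_zero] at this
    exact this
  · rw [if_neg h, Finset.sum_insert h, hf, zero_add]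

lemma prod_cancel {d : ℕ} (l : Fin d) (f : Finset (Fin d) → ℂ) (hf : ∀ η, ‖f η‖ = 1)
    (h : ∀ η, f (tog l η) = f η) : ∏ η : Finset (Fin d), cj η (f η) = 1 := by
  apply Finset.prod_involution (fun η _ => tog l η)
  · intro η _
    rw [h]
    exact cj_cancel η (tog l η) (tog_even l η) _ (hf η)
  · intro η _ _
    exact tog_ne l η
  · intro η _
    exact Finset.mem_univ _
  · intro η _
    exact tog_tog l η

lemma tri_prod {φ : ℤ → ℤ} (hφ : Tri φ) {ι : Type} [DecidableEq ι] (S : Finset ι) (y : ι → ℤ) (n : ℤ) :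
    ∏ i ∈ S, φ (n + y i) = -1 ∨ ∏ i ∈ S, φ (n + y i) = 0 ∨ ∏ i ∈ S, φ (n + y i) = 1 := by
  induction S using Finset.induction_on with
  | empty => simp
  | insert a S ha ih =>
    rw [Finset.prod_insert ha]
    rcases hφ (n + y a) with h | h | h <;> rcases ih with h' | h' | h' <;> rw [h, h'] <;> norm_num

lemma Ph_single (φ : ℤ → ℤ) (y n : ℤ) : Ph φ (LaurentPolynomial.T y) n = φ (n + y) := by
  unfold Ph
  have e : (LaurentPolynomial.T y : LaurentPolynomial (ZMod 2)).coeff.support = {y} := by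
    ext z
    rw [Finsupp.mem_support_iff, LaurentPolynomial.T_apply, Finset.mem_singleton]
    by_cases h : y = z
    · subst h; simp
    · rw [if_neg h]
      constructor
      · intro h1; exact absurd rfl h1
      · intro h1; exact absurd h1.symm h
  rw [e, Finset.prod_singleton]

lemma Ph_zero (φ : ℤ → ℤ) (n : ℤ) : Ph φ 0 n = 1 := by
  unfold Ph
  rw [show (0 : LaurentPolynomial (ZMod 2)).coeff.support = ∅ from rfl, Finset.prod_empty]

lemma Ph_sum {φ : ℤ → ℤ} (hφ : Tri φ) {ι : Type} [DecidableEq ι] (S : Finset ι) (y : ι → ℤ) (n : ℤ)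
    (h : ∏ i ∈ S, φ (n + y i) ≠ 0) :
    Ph φ (∑ i ∈ S, LaurentPolynomial.T (y i)) n = ∏ i ∈ S, φ (n + y i) := by
  induction S using Finset.induction_on with
  | empty => simp [Ph_zero]
  | insert a S ha ih =>
    rw [Finset.prod_insert ha] at h
    rw [Finset.sum_insert ha, Finset.prod_insert ha, Ph_add hφ _ _ _ (by
      rw [Ph_single]; exact left_ne_zero_of_mul h), Ph_single, ih (right_ne_zero_of_mul h)]

lemma prod_T {ι : Type} [DecidableEq ι] (s : Finset ι) (f : ι → ℤ) :
    ∏ i ∈ s, (LaurentPolynomial.T (f i) : LaurentPolynomial (ZMod 2)) = LaurentPolynomial.T (∑ i ∈ s, f i) := by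
  induction s using Finset.induction_on with
  | empty => simp [LaurentPolynomial.T_zero]
  | insert a s ha ih =>
    rw [Finset.prod_insert ha, Finset.sum_insert ha, ih]
    exact (LaurentPolynomial.T_add _ _).symm

/-- expansion of the Laurent polynomial of a cube -/
lemma expand {d : ℕ} (y : ℤ) (f : Fin d → ℤ) :
    (LaurentPolynomial.T y * ∏ i, (1 + LaurentPolynomial.T (f i)) : LaurentPolynomial (ZMod 2)) =
      ∑ η : Finset (Fin d), LaurentPolynomial.T (y + ∑ i ∈ η, f i) := by
  rw [Finset.prod_one_add, Finset.mul_sum, Finset.powerset_univ]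
  apply Finset.sum_congr rfl
  intro η _
  rw [prod_T, LaurentPolynomial.T_add]

theorem cr : S_CR := by
  classical
  intro μ V A hA hV φ hφ d u hu x θ ρ hθ hθ1 ν r hrel
  -- data
  set p : Finset (Fin d) → ℤ := fun η => 1 + A * (ν + ∑ i ∈ η, r i) with hp
  set t : Finset (Fin d) → ℤ := fun η => -(A * ∑ i ∈ η, r i * x i.succ) with ht
  set y : Finset (Fin d) → ℤ := fun η => (1 + A * ν) * x 0 + ∑ i ∈ η, (A : ℤ) * (r i * (x 0 - x i.succ)) with hy
  choose σ hσ hm using hrel
  rw [expand]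
  set Sg : ℂ := ∏ η : Finset (Fin d), cj η (σ η) with hSg
  have hSgn : ‖Sg‖ = 1 := by
    rw [hSg, norm_prod]
    apply Finset.prod_eq_one
    intro η _
    rw [cj_norm, hσ]
  -- the translated exceptional sets
  set F : Finset (Fin d) → ℤ → Prop := fun η n =>
    θ < ‖(φ (n + p η * x 0) : ℂ) * ∏ i : Fin d, u i (n + p η * x i.succ) - σ η‖ with hF
  have hbad : ∀ η, μ.m (ind (fun n : ℕ => V n ∧ F η (n + t η))) ≤ ρ := by
    intro η
    rw [m_ind_shift μ V A hV (F η) (t η) (by
      rw [ht]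
      exact (dvd_neg).2 (Dvd.intro _ rfl))]
    exact hm η
  have hun := m_ind_union μ (fun η (n : ℕ) => V n ∧ F η (n + t η)) ρ hbad Finset.univ
  have hcard : ((Finset.univ : Finset (Finset (Fin d))).card : ℝ) = ((2 ^ d : ℕ) : ℝ) := by
    rw [Finset.card_univ, Fintype.card_finset, Fintype.card_fin]
  rw [hcard] at hun
  -- the key computation
  have hW : ∀ n : ℤ, (∀ η, ¬ F η (n + t η)) →
      ‖((∏ η : Finset (Fin d), φ (n + y η) : ℤ) : ℂ) - Sg‖ ≤ 2 ^ d * θ := by
    intro n hn
    set z : Finset (Fin d) → ℂ := fun η =>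
      (φ (n + t η + p η * x 0) : ℂ) * ∏ i : Fin d, u i (n + t η + p η * x i.succ) with hz
    have hz1 : ∀ η, ‖z η‖ ≤ 1 := by
      intro η
      rw [hz]
      simp only
      rw [norm_mul, norm_prod]
      have h1 : ‖(φ (n + t η + p η * x 0) : ℂ)‖ ≤ 1 := by
        rcases hφ (n + t η + p η * x 0) with h | h | h <;> rw [h] <;> simp
      have h2 : ∏ i : Fin d, ‖u i (n + t η + p η * x i.succ)‖ = 1 :=
        Finset.prod_eq_one fun i _ => hu i _
      rw [h2, mul_one]
      exact h1
    have h1 : ‖∏ η : Finset (Fin d), cj η (z η) - Sg‖ ≤ 2 ^ d * θ := by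
      rw [hSg]
      have := norm_prod_sub (Finset.univ : Finset (Finset (Fin d))) (fun η => cj η (z η))
        (fun η => cj η (σ η)) θ (fun η => by rw [cj_norm]; exact hz1 η)
        (fun η => by rw [cj_norm, hσ]) (fun η _ => by
          rw [← cj_sub, cj_norm]
          exact not_lt.1 (hn η))
      rw [hcard] at this
      push_cast at this
      exact this
    have h2 : ∏ η : Finset (Fin d), cj η (z η) = ((∏ η : Finset (Fin d), φ (n + y η) : ℤ) : ℂ) := by
      rw [hz]
      simp only [cj_mul, cj_prod, cj_int]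
      rw [Finset.prod_mul_distrib, Finset.prod_comm]
      have h3 : ∀ l : Fin d, ∏ η : Finset (Fin d), cj η (u l (n + t η + p η * x l.succ)) = 1 := by
        intro l
        apply prod_cancel l (fun η => u l (n + t η + p η * x l.succ)) (fun η => hu l _)
        intro η
        have h4 : ∀ η, n + t η + p η * x l.succ = n + (1 + A * ν) * x l.succ +
            A * ∑ i ∈ η, r i * (x l.succ - x i.succ) := by
          intro η
          rw [ht, hp]
          simp only
          have h5 : ∑ i ∈ η, r i * (x l.succ - x i.succ) =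
              (∑ i ∈ η, r i) * x l.succ - ∑ i ∈ η, r i * x i.succ := by
            rw [Finset.sum_mul, ← Finset.sum_sub_distrib]
            exact Finset.sum_congr rfl fun i _ => by ring
          rw [h5]
          ring
        show u l (n + t (tog l η) + p (tog l η) * x l.succ) = u l (n + t η + p η * x l.succ)
        rw [h4, h4, tog_sum l η (fun i => r i * (x l.succ - x i.succ)) (by simp)]
      rw [Finset.prod_eq_one fun l _ => h3 l, mul_one]
      push_cast
      apply Finset.prod_congr rfl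
      intro η _
      congr 2
      rw [ht, hp, hy]
      simp only
      have h5 : ∑ i ∈ η, (A : ℤ) * (r i * (x 0 - x i.succ)) =
          A * ((∑ i ∈ η, r i) * x 0 - ∑ i ∈ η, r i * x i.succ) := by
        rw [Finset.sum_mul, ← Finset.sum_sub_distrib, Finset.mul_sum]
        exact Finset.sum_congr rfl fun i _ => by ring
      rw [h5]
      ring
    rw [← h2]
    exact h1
  -- the sign
  obtain ⟨s, hs, hsn⟩ : ∃ s : ℤ, (s = 1 ∨ s = -1) ∧ ∀ n : ℤ, (∀ η, ¬ F η (n + t η)) →
      ∏ η : Finset (Fin d), φ (n + y η) = s := by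
    have h0 : ∀ n : ℤ, (∀ η, ¬ F η (n + t η)) → ∏ η : Finset (Fin d), φ (n + y η) = 1 ∨
        ∏ η : Finset (Fin d), φ (n + y η) = -1 := by
      intro n hn
      have h1 := hW n hn
      rcases tri_prod hφ (Finset.univ : Finset (Finset (Fin d))) y n with h | h | h
      · exact Or.inr h
      · exfalso
        rw [h] at h1
        simp only [Int.cast_zero, zero_sub, norm_neg, hSgn] at h1
        linarith
      · exact Or.inl h
    by_cases hc : ‖(1 : ℂ) - Sg‖ ≤ 2 ^ d * θ
    · refine ⟨1, Or.inl rfl, fun n hn => ?_⟩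
      rcases h0 n hn with h | h
      · exact h
      · exfalso
        have h1 := hW n hn
        rw [h] at h1
        have h2 : ‖((1 : ℂ) - Sg) - (((-1 : ℤ) : ℂ) - Sg)‖ ≤ 2 ^ d * θ + 2 ^ d * θ :=
          (norm_sub_le _ _).trans (add_le_add hc h1)
        have h3 : ((1 : ℂ) - Sg) - (((-1 : ℤ) : ℂ) - Sg) = 2 := by
          push_cast; ring
        rw [h3] at h2
        norm_num at h2
        linarith
    · refine ⟨-1, Or.inr rfl, fun n hn => ?_⟩
      rcases h0 n hn with h | h
      · exfalso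
        have h1 := hW n hn
        rw [h] at h1
        push_cast at h1
        exact hc h1
      · exact h
  refine ⟨s, hs, le_trans (m_ind_mono μ ?_) hun⟩
  rintro n ⟨hVn, hne⟩
  by_contra hcon
  push Not at hcon
  have hgood : ∀ η, ¬ F η ((n : ℤ) + t η) := fun η hFη => by
    exact absurd hFη (hcon η (Finset.mem_univ _) hVn)
  have h1 := hsn n hgood
  apply hne
  have h2 : ∏ η : Finset (Fin d), φ (n + y η) ≠ 0 := by
    rw [h1]
    rcases hs with rfl | rfl <;> norm_num
  have h3 := Ph_sum hφ (Finset.univ : Finset (Finset (Fin d))) y n h2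
  rw [← h1, ← h3]

end Pool.Agent.Y815.EC
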